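import Pool.Agent.H40.NE.Basic
import Pool.Graph.R_pool_sql_team_seeded_c8625f6e.K4H14.FG.Adm

/-!
Counting the admissible classes.
-/

set_option autoImplicit false

namespace Pool.Agent.H40.NE

open Finset

open Pool.Agent.K4H14.FG (coprime_iff prod_low two_pow_card)

variable {Φ : ℕ → ℕ}

/-- number of the roots of `Φ` modulo `p` -/
def rt (Φ : ℕ → ℕ) (p : ℕ) : ℕ := ((range p).filter (fun m : ℕ => p ∣ Φ m)).card

theorem rt_le_two [Quad Φ] (p : ℕ) (hp : p.Prime) : rt Φ p ≤ 2 := Quad.le_two p hp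

theorem rt_two [Quad Φ] : rt Φ 2 ≤ 1 := Quad.at_two

/-- the local factor -/
noncomputable def lf (Φ : ℕ → ℕ) (p : ℕ) : ℝ := 1 - (rt Φ p : ℝ) / p

theorem lf_le_one (p : ℕ) : lf Φ p ≤ 1 := by
  unfold lf
  have : (0 : ℝ) ≤ (rt Φ p : ℝ) / p := by positivity
  linarith

theorem lf_two [Quad Φ] : 1 / 2 ≤ lf Φ 2 := by
  unfold lf
  have h : (rt Φ 2 : ℝ) ≤ 1 := by exact_mod_cast rt_two
  push_cast
  linarith

theorem lf_three [Quad Φ] : 1 / 3 ≤ lf Φ 3 := by
  unfold lf
  have h : (rt Φ 3 : ℝ) ≤ 2 := by exact_mod_cast rt_le_two 3 Nat.prime_three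
  push_cast
  linarith

theorem lf_pos [Quad Φ] (p : ℕ) (hp : p.Prime) : 0 < lf Φ p := by
  rcases Nat.lt_or_ge 2 p with h2 | h2
  · unfold lf
    rw [sub_pos, div_lt_one (by exact_mod_cast hp.pos)]
    exact_mod_cast lt_of_le_of_lt (rt_le_two p hp) h2
  · have : p = 2 := le_antisymm h2 hp.two_le
    subst this
    exact lt_of_lt_of_le (by norm_num) lf_two

/-- number of `r < R`, `r ≡ b mod m`, such that `(d r) ^ 2 + 1` has no prime factor in `T` -/
def NT (Φ : ℕ → ℕ) (d : ℕ) (T : Finset ℕ) (m b R : ℕ) : ℕ :=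
  ((range R).filter (fun r : ℕ => r ≡ b [MOD m] ∧ ∀ p ∈ T, ¬ p ∣ Φ (d * r))).card

theorem NT_step [Quad Φ] (d : ℕ) (T : Finset ℕ) (p : ℕ) (hp : p.Prime) (hpd : Nat.Coprime d p)
    (m b R : ℕ) (hmp : Nat.Coprime m p) :
    ∃ c : ℕ → ℕ, NT Φ d T m b R = NT Φ d (insert p T) m b R +
      ∑ ν ∈ (range p).filter (fun m : ℕ => p ∣ Φ m), NT Φ d T (m * p) (c ν) R := by
  classical
  obtain ⟨e, _, he⟩ := Nat.exists_mul_mod_eq_one_of_coprime hpd hp.one_lt
  have he' : d * e ≡ 1 [MOD p] := by rw [Nat.ModEq, he, Nat.mod_eq_of_lt hp.one_lt]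
  refine ⟨fun ν => (Nat.chineseRemainder hmp b (e * ν) : ℕ), ?_⟩
  have h1 : NT Φ d T m b R = NT Φ d (insert p T) m b R +
      ((range R).filter (fun r : ℕ => (r ≡ b [MOD m] ∧ ∀ q ∈ T, ¬ q ∣ Φ (d * r)) ∧
        p ∣ Φ (d * r))).card := by
    unfold NT
    rw [← card_union_of_disjoint]
    · congr 1
      ext r
      simp only [mem_union, mem_filter, mem_insert]
      constructor
      · rintro ⟨h1, h2, h3⟩
        by_cases h : p ∣ Φ (d * r)
        · right; exact ⟨h1, ⟨h2, h3⟩, h⟩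
        · left
          refine ⟨h1, h2, ?_⟩
          rintro q (rfl | hq)
          · exact h
          · exact h3 q hq
      · rintro (⟨h1, h2, h3⟩ | ⟨h1, ⟨h2, h3⟩, h⟩)
        · exact ⟨h1, h2, fun q hq => h3 q (Or.inr hq)⟩
        · exact ⟨h1, h2, h3⟩
    · rw [disjoint_left]
      intro r hr hr'
      simp only [mem_filter, mem_insert] at hr hr'
      exact hr.2.2 p (Or.inl rfl) hr'.2.2
  rw [h1]
  congr 1
  have h2 := card_eq_sum_card_fiberwise (f := fun r : ℕ => (d * r) % p)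
    (t := (range p).filter (fun m : ℕ => p ∣ Φ m))
    (s := (range R).filter (fun r : ℕ => (r ≡ b [MOD m] ∧ ∀ q ∈ T, ¬ q ∣ Φ (d * r)) ∧
        p ∣ Φ (d * r))) (by
      intro r hr
      rw [mem_coe, mem_filter] at hr
      rw [mem_coe, mem_filter, mem_range]
      refine ⟨Nat.mod_lt _ hp.pos, ?_⟩
      have h4 : (d * r) % p ≡ d * r [MOD p] := Nat.mod_modEq _ _
      exact ((Quad.congr h4).dvd_iff (dvd_refl p)).2 hr.2.2)
  rw [h2]
  refine sum_congr rfl fun ν hν => ?_
  rw [mem_filter, mem_range] at hν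
  unfold NT
  congr 1
  ext r
  simp only [mem_filter, mem_range]
  have hc := (Nat.chineseRemainder hmp b (e * ν)).2
  have h5 : r ≡ e * ν [MOD p] ↔ (d * r) % p = ν := by
    constructor
    · intro h
      have h6 : d * r ≡ ν [MOD p] := by
        calc d * r ≡ d * (e * ν) [MOD p] := h.mul_left d
          _ = d * e * ν := by ring
          _ ≡ 1 * ν [MOD p] := he'.mul_right ν
          _ = ν := one_mul ν
      rw [h6, Nat.mod_eq_of_lt hν.1]
    · intro h
      have h6 : d * r ≡ ν [MOD p] := by rw [Nat.ModEq, h, Nat.mod_eq_of_lt hν.1]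
      calc r = 1 * r := (one_mul r).symm
        _ ≡ d * e * r [MOD p] := (he'.symm).mul_right r
        _ = e * (d * r) := by ring
        _ ≡ e * ν [MOD p] := h6.mul_left e
  constructor
  · rintro ⟨⟨h6, ⟨h7, h8⟩, h9⟩, h10⟩
    refine ⟨h6, ?_, h8⟩
    rw [← Nat.modEq_and_modEq_iff_modEq_mul hmp]
    exact ⟨h7.trans hc.1.symm, (h5.2 h10).trans hc.2.symm⟩
  · rintro ⟨h6, h7, h8⟩
    rw [← Nat.modEq_and_modEq_iff_modEq_mul hmp] at h7
    have h10 := h5.1 (h7.2.trans hc.2)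
    refine ⟨⟨h6, ⟨h7.1.trans hc.1, h8⟩, ?_⟩, h10⟩
    have h4 : (d * r) % p ≡ d * r [MOD p] := Nat.mod_modEq _ _
    rw [h10] at h4
    exact ((Quad.congr h4).dvd_iff (dvd_refl p)).1 hν.2

/-- the sieve of Eratosthenes-Legendre -/
theorem NT_main [Quad Φ] (d : ℕ) (T : Finset ℕ) (hT : ∀ p ∈ T, p.Prime ∧ Nat.Coprime d p) :
    ∀ m b R : ℕ, 0 < m → (∀ p ∈ T, Nat.Coprime m p) →
      |(NT Φ d T m b R : ℝ) - (R : ℝ) / m * ∏ p ∈ T, lf Φ p| ≤ 3 ^ T.card := by
  classical
  induction T using Finset.induction_on with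
  | empty =>
    intro m b R hm _
    unfold NT
    have h := Nat.count_modEq_card R hm b
    have h1 : ((range R).filter (fun r : ℕ => r ≡ b [MOD m] ∧ ∀ p ∈ (∅ : Finset ℕ),
        ¬ p ∣ Φ (d * r))).card = Nat.count (· ≡ b [MOD m]) R := by
      rw [Nat.count_eq_card_filter_range]
      congr 1
      ext r
      simp
    rw [h1, h, prod_empty, mul_one, card_empty, pow_zero]
    have hmr : (0 : ℝ) < m := by exact_mod_cast hm
    have h2 := Nat.div_add_mod R m
    have h3 : (R : ℝ) / m = ((R / m : ℕ) : ℝ) + ((R % m : ℕ) : ℝ) / m := by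
      rw [div_eq_iff hmr.ne', add_mul, div_mul_cancel₀ _ hmr.ne']
      exact_mod_cast (by rw [mul_comm]; exact h2.symm)
    have h4 : (0 : ℝ) ≤ ((R % m : ℕ) : ℝ) / m := by positivity
    have h5 : ((R % m : ℕ) : ℝ) / m ≤ 1 := by
      rw [div_le_one hmr]
      exact_mod_cast (Nat.mod_lt R hm).le
    rw [h3]
    push_cast
    split_ifs with h6
    · rw [abs_le]; constructor <;> linarith
    · rw [abs_le]; constructor <;> linarith
  | insert p T hpT ih =>
    intro m b R hm hmT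
    have hp := hT p (mem_insert_self _ _)
    have ih' := ih (fun q hq => hT q (mem_insert_of_mem hq))
    obtain ⟨c, hc⟩ := NT_step (Φ := Φ) d T p hp.1 hp.2 m b R (hmT p (mem_insert_self _ _))
    have i1 := ih' m b R hm (fun q hq => hmT q (mem_insert_of_mem hq))
    have i2 : ∀ ν : ℕ, |(NT Φ d T (m * p) (c ν) R : ℝ) -
        (R : ℝ) / ((m * p : ℕ) : ℝ) * ∏ p ∈ T, lf Φ p| ≤ 3 ^ T.card := by
      intro ν
      refine ih' (m * p) (c ν) R (Nat.mul_pos hm hp.1.pos) (fun q hq => ?_)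
      refine Nat.Coprime.mul_left (hmT q (mem_insert_of_mem hq)) ?_
      rw [Nat.coprime_primes hp.1 (hT q (mem_insert_of_mem hq)).1]
      rintro rfl
      exact hpT hq
    have h1 : (NT Φ d (insert p T) m b R : ℝ) = NT Φ d T m b R -
        ∑ ν ∈ (range p).filter (fun m : ℕ => p ∣ Φ m), (NT Φ d T (m * p) (c ν) R : ℝ) := by
      rw [hc]; push_cast; ring
    have hpr : (0 : ℝ) < p := by exact_mod_cast hp.1.pos
    have hmr : (0 : ℝ) < m := by exact_mod_cast hm
    have h2 : (NT Φ d (insert p T) m b R : ℝ) - (R : ℝ) / m * ∏ q ∈ insert p T, lf Φ q =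
        ((NT Φ d T m b R : ℝ) - (R : ℝ) / m * ∏ p ∈ T, lf Φ p) -
        ∑ ν ∈ (range p).filter (fun m : ℕ => p ∣ Φ m), ((NT Φ d T (m * p) (c ν) R : ℝ) -
          (R : ℝ) / ((m * p : ℕ) : ℝ) * ∏ p ∈ T, lf Φ p) := by
      rw [h1, prod_insert hpT, sum_sub_distrib, sum_const, nsmul_eq_mul]
      have h3 : lf Φ p = 1 - (((range p).filter (fun m : ℕ => p ∣ Φ m)).card : ℝ) / p := rfl
      rw [h3]
      push_cast
      field_simp
      ring
    rw [h2, card_insert_of_notMem hpT, pow_succ]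
    have h4 : |∑ ν ∈ (range p).filter (fun m : ℕ => p ∣ Φ m), ((NT Φ d T (m * p) (c ν) R : ℝ) -
          (R : ℝ) / ((m * p : ℕ) : ℝ) * ∏ p ∈ T, lf Φ p)| ≤ 2 * 3 ^ T.card := by
      refine (abs_sum_le_sum_abs _ _).trans ((sum_le_card_nsmul _ _ _ (fun ν _ => i2 ν)).trans ?_)
      rw [nsmul_eq_mul]
      have : (((range p).filter (fun m : ℕ => p ∣ Φ m)).card : ℝ) ≤ 2 := by
        exact_mod_cast rt_le_two p hp.1
      exact mul_le_mul_of_nonneg_right this (by positivity)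
    refine (abs_sub _ _).trans ?_
    linarith

theorem cls_eq [Quad Φ] (q : ℕ) (hq : 1 ≤ q) : (cls Φ q : ℝ) = q * ∏ p ∈ q.primeFactors, lf Φ p := by
  have h1 : ∀ k : ℕ, NT Φ 1 q.primeFactors 1 0 (k * q) = k * cls Φ q := by
    intro k
    induction k with
    | zero => simp [NT]
    | succ k ih =>
      have h2 : range ((k + 1) * q) = range (k * q) ∪ Ico (k * q) (k * q + q) := by
        ext x
        simp only [mem_range, mem_union, mem_Ico]
        have : (k + 1) * q = k * q + q := by ring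
        omega
      have h3 : NT Φ 1 q.primeFactors 1 0 ((k + 1) * q) = NT Φ 1 q.primeFactors 1 0 (k * q) +
          ((Ico (k * q) (k * q + q)).filter (fun r : ℕ => Nat.Coprime (Φ r) q)).card := by
        unfold NT
        rw [h2, filter_union, card_union_of_disjoint]
        · congr 2
          apply filter_congr
          intro r _
          rw [coprime_iff _ q hq, one_mul]
          simp [Nat.modEq_one]
        · apply disjoint_filter_filter
          rw [disjoint_left]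
          intro x hx hx'
          rw [mem_range] at hx
          rw [mem_Ico] at hx'
          omega
      have hper : Function.Periodic (fun r : ℕ => Nat.Coprime (Φ r) q) q := by
        intro r
        have h5 : r + q ≡ r [MOD q] := by simp [Nat.ModEq]
        have h6 := (Quad.congr (Φ := Φ) h5).gcd_eq
        simp only [Nat.Coprime, h6]
      rw [h3, ih, Nat.filter_Ico_card_eq_of_periodic _ _ _ hper, Nat.count_eq_card_filter_range]
      unfold cls
      ring
  have h2 : ∀ k : ℕ, |(k : ℝ) * ((cls Φ q : ℝ) - q * ∏ p ∈ q.primeFactors, lf Φ p)| ≤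
      3 ^ q.primeFactors.card := by
    intro k
    have h3 := NT_main (Φ := Φ) 1 q.primeFactors (fun p hp => ⟨Nat.prime_of_mem_primeFactors hp,
      Nat.coprime_one_left p⟩) 1 0 (k * q) one_pos (fun p _ => Nat.coprime_one_left p)
    rw [h1] at h3
    convert h3 using 2
    push_cast
    ring
  by_contra hne
  have h3 : 0 < |(cls Φ q : ℝ) - q * ∏ p ∈ q.primeFactors, lf Φ p| := abs_pos.2 (sub_ne_zero.2 hne)
  obtain ⟨k, hk⟩ := exists_nat_gt ((3 : ℝ) ^ q.primeFactors.card /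
    |(cls Φ q : ℝ) - q * ∏ p ∈ q.primeFactors, lf Φ p|)
  rw [div_lt_iff₀ h3] at hk
  have h4 := h2 k
  rw [abs_mul, Nat.abs_cast] at h4
  linarith

theorem adm_card [Quad Φ] (q d : ℕ) (hq : 1 ≤ q) (hd : 1 ≤ d) (hqd : Nat.Coprime d q) :
    |((adm Φ q d).card : ℝ) - (cls Φ q : ℝ) / d| ≤ 2 * 3 ^ q.primeFactors.card := by
  have h1 : (adm Φ q d).card = NT Φ d q.primeFactors 1 0 ((q + (d - 1)) / d) := by
    unfold adm NT
    symm
    refine card_bij (fun r _ => d * r) ?_ ?_ ?_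
    · intro r hr
      rw [mem_filter, mem_range] at hr ⊢
      refine ⟨?_, dvd_mul_right _ _, (coprime_iff _ q hq).2 hr.2.2⟩
      have h2 := hr.1
      rw [Nat.lt_div_iff_mul_lt (by omega)] at h2
      rw [mul_comm]
      omega
    · intro a _ b _ h
      exact Nat.eq_of_mul_eq_mul_left (by omega) h
    · intro a ha
      rw [mem_filter, mem_range] at ha
      obtain ⟨r, rfl⟩ := ha.2.1
      refine ⟨r, ?_, rfl⟩
      rw [mem_filter, mem_range]
      refine ⟨?_, Nat.modEq_one, (coprime_iff _ q hq).1 ha.2.2⟩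
      rw [Nat.lt_div_iff_mul_lt (by omega), mul_comm r d]
      omega
  have h2 := NT_main (Φ := Φ) d q.primeFactors (fun p hp => ⟨Nat.prime_of_mem_primeFactors hp,
      Nat.Coprime.coprime_dvd_right (Nat.dvd_of_mem_primeFactors hp) hqd⟩) 1 0
      ((q + (d - 1)) / d) one_pos (fun p _ => Nat.coprime_one_left p)
  rw [← h1] at h2
  have hdr : (0 : ℝ) < d := by exact_mod_cast hd
  have hprod0 : 0 ≤ ∏ p ∈ q.primeFactors, lf Φ p :=
    prod_nonneg (fun p hp => (lf_pos p (Nat.prime_of_mem_primeFactors hp)).le)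
  have hprod1 : ∏ p ∈ q.primeFactors, lf Φ p ≤ 1 :=
    prod_le_one (fun p hp => (lf_pos p (Nat.prime_of_mem_primeFactors hp)).le) (fun p _ => lf_le_one p)
  have h3 : |(((q + (d - 1)) / d : ℕ) : ℝ) - (q : ℝ) / d| ≤ 1 := by
    have h4 := Nat.div_add_mod (q + (d - 1)) d
    have h5 := Nat.mod_lt (q + (d - 1)) hd
    have h6 : (((q + (d - 1)) / d : ℕ) : ℝ) = ((q : ℝ) + (d - 1) - ((q + (d - 1)) % d : ℕ)) / d := by
      rw [eq_div_iff hdr.ne']
      have h7 : ((d * ((q + (d - 1)) / d) + (q + (d - 1)) % d : ℕ) : ℝ) = ((q + (d - 1) : ℕ) : ℝ) := by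
        rw [h4]
      push_cast [Nat.cast_sub hd] at h7
      linarith
    rw [h6, ← sub_div, abs_div, abs_of_pos hdr, div_le_one hdr]
    have h8 : (((q + (d - 1)) % d : ℕ) : ℝ) ≤ d - 1 := by
      have : (q + (d - 1)) % d + 1 ≤ d := h5
      have : (((q + (d - 1)) % d + 1 : ℕ) : ℝ) ≤ d := by exact_mod_cast this
      push_cast at this
      linarith
    have h9 : (0 : ℝ) ≤ (((q + (d - 1)) % d : ℕ) : ℝ) := by positivity
    have h10 : (1 : ℝ) ≤ d := by exact_mod_cast hd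
    rw [abs_le]
    constructor <;> linarith
  have h4 : ((adm Φ q d).card : ℝ) - (cls Φ q : ℝ) / d =
      (((adm Φ q d).card : ℝ) - (((q + (d - 1)) / d : ℕ) : ℝ) / ((1 : ℕ) : ℝ) *
        ∏ p ∈ q.primeFactors, lf Φ p) +
      ((((q + (d - 1)) / d : ℕ) : ℝ) - (q : ℝ) / d) * ∏ p ∈ q.primeFactors, lf Φ p := by
    rw [cls_eq q hq]
    push_cast
    ring
  rw [h4]
  have h5 : |((((q + (d - 1)) / d : ℕ) : ℝ) - (q : ℝ) / d) * ∏ p ∈ q.primeFactors, lf Φ p| ≤ 1 := by
    rw [abs_mul, abs_of_nonneg hprod0]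
    calc _ ≤ 1 * 1 := mul_le_mul h3 hprod1 hprod0 (by norm_num)
      _ = 1 := one_mul 1
  have h6 : (1 : ℝ) ≤ 3 ^ q.primeFactors.card := one_le_pow₀ (by norm_num)
  refine (abs_add_le _ _).trans ?_
  linarith

theorem lf_prod_low [Quad Φ] (T : Finset ℕ) (hT : ∀ p ∈ T, p.Prime) :
    (1 : ℝ) / ((T.card + 2) * (T.card + 3)) ≤ ∏ p ∈ T, lf Φ p := by
  classical
  have h1 := (prod_low (T.filter (fun p => 4 ≤ p)) (fun n hn => (mem_filter.1 hn).2)).2
  rw [← prod_filter_mul_prod_filter_not T (fun p => 4 ≤ p)]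
  have h2 : (1 : ℝ) / 6 ≤ ∏ p ∈ T.filter (fun p => ¬ 4 ≤ p), lf Φ p := by
    have h3 : T.filter (fun p => ¬ 4 ≤ p) ⊆ {2, 3} := by
      intro p hp
      rw [mem_filter] at hp
      have := (hT p hp.1).two_le
      simp only [mem_insert, mem_singleton]
      omega
    have h4 : ∏ p ∈ ({2, 3} : Finset ℕ), lf Φ p ≤ ∏ p ∈ T.filter (fun p => ¬ 4 ≤ p), lf Φ p := by
      rw [← prod_sdiff h3]
      have h5 : ∏ p ∈ ({2, 3} : Finset ℕ) \ T.filter (fun p => ¬ 4 ≤ p), lf Φ p ≤ 1 := by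
        refine prod_le_one (fun p hp => ?_) (fun p _ => lf_le_one p)
        rw [mem_sdiff, mem_insert, mem_singleton] at hp
        rcases hp.1 with rfl | rfl
        · exact (lf_pos 2 Nat.prime_two).le
        · exact (lf_pos 3 Nat.prime_three).le
      have h6 : 0 ≤ ∏ p ∈ T.filter (fun p => ¬ 4 ≤ p), lf Φ p :=
        prod_nonneg (fun p hp => (lf_pos p (hT p (mem_filter.1 hp).1)).le)
      nlinarith
    refine le_trans ?_ h4
    rw [prod_pair (by norm_num)]
    calc (1 : ℝ) / 6 = 1 / 2 * (1 / 3) := by norm_num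
      _ ≤ lf Φ 2 * lf Φ 3 := mul_le_mul lf_two lf_three (by norm_num) (lf_pos 2 Nat.prime_two).le
  have h3 : ∏ n ∈ T.filter (fun p => 4 ≤ p), (1 - 2 / (n : ℝ)) ≤ ∏ p ∈ T.filter (fun p => 4 ≤ p), lf Φ p := by
    apply prod_le_prod
    · intro p hp
      rw [mem_filter] at hp
      have : (4 : ℝ) ≤ p := by exact_mod_cast hp.2
      rw [sub_nonneg, div_le_one (by linarith)]
      linarith
    · intro p hp
      rw [mem_filter] at hp
      unfold lf
      have h4 : (rt Φ p : ℝ) ≤ 2 := by exact_mod_cast rt_le_two p (hT p hp.1)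
      have h5 : (rt Φ p : ℝ) / p ≤ 2 / p := by
        apply div_le_div_of_nonneg_right h4 (by positivity)
      linarith
  have h4 : (6 : ℝ) / ((T.card + 2) * (T.card + 3)) ≤
      6 / (((T.filter (fun p => 4 ≤ p)).card + 2) * ((T.filter (fun p => 4 ≤ p)).card + 3)) := by
    have h5 : ((T.filter (fun p => 4 ≤ p)).card : ℝ) ≤ T.card := by
      exact_mod_cast card_filter_le _ _
    apply div_le_div_of_nonneg_left (by norm_num) (by positivity)
    apply mul_le_mul
    · linarith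
    · linarith
    · positivity
    · positivity
  calc (1 : ℝ) / ((T.card + 2) * (T.card + 3)) = 6 / ((T.card + 2) * (T.card + 3)) * (1 / 6) := by
        field_simp
    _ ≤ (∏ p ∈ T.filter (fun p => 4 ≤ p), lf Φ p) * ∏ p ∈ T.filter (fun p => ¬ 4 ≤ p), lf Φ p := by
        apply mul_le_mul (h4.trans (h1.trans h3)) h2 (by norm_num)
        exact le_trans (by positivity) (h1.trans h3)

theorem cls_pos [Quad Φ] (q : ℕ) (hq : 1 ≤ q) : 0 < cls Φ q := by
  have h : (0 : ℝ) < cls Φ q := by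
    rw [cls_eq q hq]
    have h1 : (0 : ℝ) < q := by exact_mod_cast hq
    exact mul_pos h1 (prod_pos fun p hp => lf_pos p (Nat.prime_of_mem_primeFactors hp))
  exact_mod_cast h

theorem cls_low [Quad Φ] (q : ℕ) (hq : 1 ≤ q) :
    (q : ℝ) * (1 / ((q.primeFactors.card + 2) * (q.primeFactors.card + 3))) ≤ cls Φ q := by
  rw [cls_eq q hq]
  exact mul_le_mul_of_nonneg_left
    (lf_prod_low _ (fun p hp => Nat.prime_of_mem_primeFactors hp)) (by positivity)

end Pool.Agent.H40.NE
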