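import Pool.Agent.H40.NE.Low
import Pool.Graph.R_pool_sql_team_seeded_c8625f6e.K4H14.FG.Amp

/-!
Equidistribution in the classes of most large moduli gives equidistribution for all small moduli.
-/

set_option autoImplicit false

namespace Pool.Agent.H40.NE

open Finset Filter

open Pool.Agent.K4H14.FG (polylog mo)

variable {Φ : ℕ → ℕ}

open Classical in
/-- the admissible classes for which the number of primes differs from `F` by at least `δ F` -/
noncomputable def dv (Φ : ℕ → ℕ) (δ F : ℝ) (X q : ℕ) : Finset ℕ := (range q).filter (fun a : ℕ =>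
  Nat.Coprime (Φ a) q ∧ δ * F ≤ |(cnt Φ X q a : ℝ) - F|)

theorem sum_cnt_set (X q : ℕ) (S : Finset ℕ) (hS : S ⊆ range q) :
    ∑ a ∈ S, cnt Φ X q a = ((Icc 1 X).filter (fun n : ℕ => n % q ∈ S ∧ (Φ n).Prime)).card := by
  have h := card_eq_sum_card_fiberwise (f := fun n : ℕ => n % q) (t := S)
    (s := (Icc 1 X).filter (fun n : ℕ => n % q ∈ S ∧ (Φ n).Prime)) (by
      intro n hn
      rw [mem_coe, mem_filter] at hn
      exact hn.2.1)
  rw [h]
  refine sum_congr rfl fun a ha => ?_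
  unfold cnt
  congr 1
  ext n
  simp only [mem_filter]
  have ha2 : a % q = a := Nat.mod_eq_of_lt (mem_range.1 (hS ha))
  constructor
  · rintro ⟨h1, h2, h3⟩
    have h4 : n % q = a := by rw [Nat.ModEq, ha2] at h2; exact h2
    exact ⟨⟨h1, by rw [h4]; exact ha, h3⟩, h4⟩
  · rintro ⟨⟨h1, h2, h3⟩, h4⟩
    exact ⟨h1, by rw [Nat.ModEq, ha2]; exact h4, h3⟩

/-- few primes lie in classes which are not admissible -/
theorem nonadm [Quad Φ] (X q : ℕ) (hq : 1 ≤ q) (S : Finset ℕ) (hS : S ⊆ range q)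
    (hna : ∀ a ∈ S, ¬ Nat.Coprime (Φ a) q) : ∑ a ∈ S, cnt Φ X q a ≤ Nat.sqrt q := by
  rw [sum_cnt_set X q S hS]
  have h1 : (Icc 1 X).filter (fun n : ℕ => n % q ∈ S ∧ (Φ n).Prime) ⊆ Icc 1 (Nat.sqrt q) := by
    intro n hn
    rw [mem_filter, mem_Icc] at hn
    obtain ⟨⟨h1, _⟩, h2, h3⟩ := hn
    obtain ⟨p, hp, h4, h5⟩ := Nat.Prime.not_coprime_iff_dvd.1 (hna _ h2)
    have h6 : p ∣ Φ n := by
      have h7 : n % q ≡ n [MOD p] := (Nat.mod_modEq n q).of_dvd h5
      exact ((Quad.congr h7).dvd_iff (dvd_refl p)).1 h4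
    have h7 : p = Φ n := (Nat.prime_dvd_prime_iff_eq hp h3).1 h6
    have h8 : p ≤ q := Nat.le_of_dvd hq h5
    rw [mem_Icc]
    refine ⟨h1, ?_⟩
    rw [Nat.le_sqrt']
    have := Quad.big (Φ := Φ) n
    omega
  refine (card_le_card h1).trans ?_
  rw [Nat.card_Icc]
  omega

theorem dv_card [Quad Φ] (δ F : ℝ) (hδ0 : 0 ≤ δ) (hδ : δ ≤ 1) (X q : ℕ) (hq : 1 ≤ q) :
    (cls Φ q : ℝ) - cnt Φ X 1 0 ≤ (dv Φ δ F X q).card := by
  classical
  have h1 : cls Φ q ≤ (dv Φ δ F X q).card + ((range q).filter (fun a => cnt Φ X q a ≠ 0)).card := by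
    rw [cls]
    refine le_trans (card_le_card ?_) (card_union_le _ _)
    intro a ha
    rw [mem_filter] at ha
    rw [mem_union]
    by_cases h : cnt Φ X q a = 0
    · left
      unfold dv
      rw [mem_filter]
      refine ⟨ha.1, ha.2, ?_⟩
      rw [h, Nat.cast_zero, zero_sub, abs_neg]
      calc δ * F ≤ δ * |F| := mul_le_mul_of_nonneg_left (le_abs_self F) hδ0
        _ ≤ 1 * |F| := mul_le_mul_of_nonneg_right hδ (abs_nonneg F)
        _ = |F| := one_mul _
    · right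
      rw [mem_filter]
      exact ⟨ha.1, h⟩
  have h2 : ((range q).filter (fun a => cnt Φ X q a ≠ 0)).card ≤ cnt Φ X 1 0 := by
    rw [← sum_cnt X q hq, card_eq_sum_ones, sum_filter]
    apply sum_le_sum
    intro a _
    split_ifs with h
    · omega
    · omega
  have h3 : (cls Φ q : ℝ) ≤ (dv Φ δ F X q).card + cnt Φ X 1 0 := by exact_mod_cast h1.trans (by omega)
  linarith

theorem lowF [Quad Φ] (B : ℕ) (ε : ℝ) (hε : 0 < ε) :
    ∀ᶠ X : ℕ in atTop, ∀ D : ℕ → Finset ℕ, (∀ q, 1 ≤ q → (cls Φ q : ℝ) - cnt Φ X 1 0 ≤ (D q).card) →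
      (∑ q ∈ mo B X, ((D q).card : ℝ)) < (X : ℝ) ^ (2 - ε) →
      (X : ℝ) / Real.log X ^ (B + 3) ≤ cnt Φ X 1 0 := by
  have hlog : Tendsto (fun X : ℕ => Real.log X) atTop atTop :=
    Real.tendsto_log_atTop.comp tendsto_natCast_atTop_atTop
  filter_upwards [hlog.eventually_ge_atTop 24, polylog (2 * B + 2) 144 ε hε, eventually_ge_atTop 1,
    polylog B 4 1 one_pos] with X hL hp hX1 hp2 D hD hsum
  by_contra hc
  push Not at hc
  set L := Real.log X with hLdef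
  have hL0 : 0 < L := by linarith
  have hXr : (1 : ℝ) ≤ X := by exact_mod_cast hX1
  have hLB : (1 : ℝ) ≤ L ^ B := one_le_pow₀ (by linarith)
  set Q : ℕ := ⌊(X : ℝ) / L ^ B⌋₊ with hQ
  have hQle : (Q : ℝ) ≤ X / L ^ B := Nat.floor_le (by positivity)
  have hQlt : (X : ℝ) / L ^ B < Q + 1 := Nat.lt_floor_add_one _
  have hbig : (4 : ℝ) ≤ X / L ^ B := by
    rw [le_div_iff₀ (by positivity)]
    rw [Real.rpow_one] at hp2
    refine le_trans ?_ hp2
    apply mul_le_mul_of_nonneg_left _ (by norm_num)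
    exact pow_le_pow_left₀ hL0.le (by linarith) B
  have hsub : Ioc (Q / 2) Q ⊆ mo B X := by
    intro q hq
    rw [mem_Ioc] at hq
    unfold mo
    rw [mem_filter, mem_Icc]
    have h1 : (q : ℝ) ≤ X / L ^ B := le_trans (by exact_mod_cast hq.2) hQle
    have h2 : (q : ℝ) * L ^ B ≤ X := by rwa [le_div_iff₀ (by positivity)] at h1
    refine ⟨⟨by omega, ?_⟩, h2⟩
    have : (q : ℝ) ≤ X := by nlinarith [Nat.cast_nonneg (α := ℝ) q]
    exact_mod_cast this
  have h1 : ∀ q ∈ Ioc (Q / 2) Q, (X : ℝ) / (24 * L ^ (B + 2)) ≤ (D q).card := by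
    intro q hq
    rw [mem_Ioc] at hq
    have hq1 : 1 ≤ q := by omega
    refine le_trans ?_ (hD q hq1)
    have hqX : (q : ℝ) ≤ X := by
      have h2 : (q : ℝ) ≤ X / L ^ B := le_trans (by exact_mod_cast hq.2) hQle
      exact h2.trans (div_le_self (by linarith) hLB)
    have h3 := cls_ge (Φ := Φ) q hq1 L (Real.log_le_log (by exact_mod_cast hq1) hqX) (by linarith)
    have h4 : (X : ℝ) / L ^ B / 3 ≤ q := by
      have h5 : (Q : ℝ) + 1 ≤ 2 * q := by exact_mod_cast (by omega : Q + 1 ≤ 2 * q)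
      have h6 : (X : ℝ) / L ^ B ≤ 2 * q := by linarith
      linarith [Nat.cast_nonneg (α := ℝ) q]
    have h5 : (X : ℝ) / (12 * L ^ (B + 2)) ≤ cls Φ q := by
      calc (X : ℝ) / (12 * L ^ (B + 2)) = (X : ℝ) / L ^ B / 3 / (4 * L ^ 2) := by
            rw [pow_add]
            field_simp
            norm_num
        _ ≤ (q : ℝ) / (4 * L ^ 2) := div_le_div_of_nonneg_right h4 (by positivity)
        _ ≤ cls Φ q := h3
    have h6 : (X : ℝ) / L ^ (B + 3) ≤ (X : ℝ) / (24 * L ^ (B + 2)) := by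
      apply div_le_div_of_nonneg_left (by linarith) (by positivity)
      have h8 : L ^ (B + 3) = L ^ (B + 2) * L := by ring
      rw [h8]
      have h7 := mul_nonneg (pow_pos hL0 (B + 2)).le (sub_nonneg.2 hL)
      linarith
    have h7 : (X : ℝ) / (12 * L ^ (B + 2)) = 2 * ((X : ℝ) / (24 * L ^ (B + 2))) := by
      field_simp
      norm_num
    have h8 : 0 ≤ (X : ℝ) / (24 * L ^ (B + 2)) := by positivity
    linarith
  have h2 : ((Ioc (Q / 2) Q).card : ℝ) * ((X : ℝ) / (24 * L ^ (B + 2))) ≤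
      ∑ q ∈ mo B X, ((D q).card : ℝ) := by
    have h3 := card_nsmul_le_sum _ _ _ h1
    rw [nsmul_eq_mul] at h3
    refine h3.trans (sum_le_sum_of_subset_of_nonneg hsub (fun _ _ _ => Nat.cast_nonneg _))
  have h3 : (X : ℝ) / L ^ B / 3 ≤ ((Ioc (Q / 2) Q).card : ℝ) := by
    rw [Nat.card_Ioc]
    have h4 : (Q : ℝ) ≤ 2 * ((Q - Q / 2 : ℕ) : ℝ) := by exact_mod_cast (by omega : Q ≤ 2 * (Q - Q / 2))
    linarith
  have h4 : (X : ℝ) ^ (2 - ε) ≤ (X : ℝ) / L ^ B / 3 * ((X : ℝ) / (24 * L ^ (B + 2))) := by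
    have h5 : (X : ℝ) / L ^ B / 3 * ((X : ℝ) / (24 * L ^ (B + 2))) = X ^ 2 / (72 * L ^ (2 * B + 2)) := by
      field_simp
      ring
    rw [h5, le_div_iff₀ (by positivity), Real.rpow_sub (by linarith), div_mul_eq_mul_div,
      div_le_iff₀ (by positivity), Real.rpow_two]
    apply mul_le_mul_of_nonneg_left _ (by positivity)
    refine le_trans ?_ hp
    rw [mul_pow]
    have h6 : (1 : ℝ) ≤ 2 ^ (2 * B + 2) := one_le_pow₀ (by norm_num)
    nlinarith [pow_pos hL0 (2 * B + 2)]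
  have h5 : (X : ℝ) / L ^ B / 3 * ((X : ℝ) / (24 * L ^ (B + 2))) ≤
      ((Ioc (Q / 2) Q).card : ℝ) * ((X : ℝ) / (24 * L ^ (B + 2))) :=
    mul_le_mul_of_nonneg_right h3 (by positivity)
  linarith

/-- the classes above a class of a smaller modulus -/
theorem cnt_split (X q s a : ℕ) (hq : 1 ≤ q) (hs : 1 ≤ s) :
    cnt Φ X q a = ∑ b ∈ (range (q * s)).filter (fun b => b ≡ a [MOD q]), cnt Φ X (q * s) b := by
  rw [sum_cnt_set X (q * s) _ (filter_subset _ _)]
  unfold cnt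
  congr 1
  ext n
  simp only [mem_filter, mem_range]
  have h1 : n % (q * s) < q * s := Nat.mod_lt _ (Nat.mul_pos hq hs)
  have h2 : n % (q * s) ≡ n [MOD q] := (Nat.mod_modEq n (q * s)).of_dvd (dvd_mul_right q s)
  constructor
  · rintro ⟨h3, h4, h5⟩
    exact ⟨h3, ⟨h1, h2.trans h4⟩, h5⟩
  · rintro ⟨h3, ⟨_, h4⟩, h5⟩
    exact ⟨h3, h2.symm.trans h4, h5⟩

theorem cls_mul [Quad Φ] (q s : ℕ) (hq : 1 ≤ q) (hs : 1 ≤ s) (hqs : Nat.Coprime q s) :
    (cls Φ (q * s) : ℝ) = cls Φ q * cls Φ s := by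
  rw [cls_eq _ (Nat.mul_pos hq hs), cls_eq q hq, cls_eq s hs, hqs.primeFactors_mul,
    prod_union hqs.disjoint_primeFactors]
  push_cast
  ring

/-- the number of the admissible classes above an admissible class -/
theorem lift_card [Quad Φ] (q s a : ℕ) (hq : 1 ≤ q) (hs : 1 ≤ s) (hqs : Nat.Coprime q s)
    (ha : Nat.Coprime (Φ a) q) :
    (((range (q * s)).filter (fun b => b ≡ a [MOD q])).filter
      (fun b => Nat.Coprime (Φ b) (q * s))).card = cls Φ s := by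
  unfold cls
  refine card_bij (fun b _ => b % s) ?_ ?_ ?_
  · intro b hb
    simp only [mem_filter, mem_range] at hb ⊢
    refine ⟨Nat.mod_lt _ hs, ?_⟩
    have h1 : Nat.Coprime (Φ b) s := Nat.Coprime.coprime_mul_left_right hb.2
    have h2 : Φ (b % s) ≡ Φ b [MOD s] := Quad.congr (Nat.mod_modEq b s)
    rw [Nat.Coprime, h2.gcd_eq]
    exact h1
  · intro b hb b' hb' h
    simp only [mem_filter, mem_range] at hb hb'
    have h1 : b ≡ b' [MOD s] := h
    have h2 : b ≡ b' [MOD q] := hb.1.2.trans hb'.1.2.symm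
    have h3 : b ≡ b' [MOD q * s] := (Nat.modEq_and_modEq_iff_modEq_mul hqs).1 ⟨h2, h1⟩
    exact Nat.ModEq.eq_of_lt_of_lt h3 hb.1.1 hb'.1.1
  · intro c hc
    simp only [mem_filter, mem_range] at hc
    obtain ⟨k, hk1, hk2⟩ := Nat.chineseRemainder hqs a c
    have h0 : 0 < q * s := Nat.mul_pos hq hs
    have h1 : k % (q * s) ≡ k [MOD q] := (Nat.mod_modEq k (q * s)).of_dvd (dvd_mul_right q s)
    have h2 : k % (q * s) ≡ k [MOD s] := (Nat.mod_modEq k (q * s)).of_dvd (dvd_mul_left s q)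
    refine ⟨k % (q * s), ?_, ?_⟩
    · simp only [mem_filter, mem_range]
      refine ⟨⟨Nat.mod_lt _ h0, h1.trans hk1⟩, ?_⟩
      rw [Nat.coprime_mul_iff_right]
      constructor
      · have h3 : Φ (k % (q * s)) ≡ Φ a [MOD q] := Quad.congr (h1.trans hk1)
        rw [Nat.Coprime, h3.gcd_eq]
        exact ha
      · have h3 : Φ (k % (q * s)) ≡ Φ c [MOD s] := Quad.congr (h2.trans hk2)
        rw [Nat.Coprime, h3.gcd_eq]
        exact hc.2
    · have h3 : k % (q * s) ≡ c [MOD s] := h2.trans hk2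
      rw [Nat.ModEq, Nat.mod_eq_of_lt hc.1] at h3
      exact h3

end Pool.Agent.H40.NE
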