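import Pool.Agent.H40.NE.Amp
import Pool.Graph.R_pool_sql_team_seeded_c8625f6e.K4H14.FG.Amp2

/-!
Equidistribution in the classes of most large moduli gives equidistribution for all small moduli:
one modulus.
-/

set_option autoImplicit false

namespace Pool.Agent.H40.NE

open Finset Filter

open Pool.Agent.K4H14.FG (polylog mo alg1 sum_near sqrt_le_real)

variable {Φ : ℕ → ℕ}

theorem cnt_le_real (X q a : ℕ) : (cnt Φ X q a : ℝ) ≤ (X : ℝ) / q + 1 := by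
  have h1 : (cnt Φ X q a : ℝ) ≤ ((X / q + 1 : ℕ) : ℝ) := by exact_mod_cast cnt_le_div X q a
  refine h1.trans ?_
  push_cast
  have h2 : ((X / q : ℕ) : ℝ) ≤ (X : ℝ) / q := Nat.cast_div_le
  linarith

theorem sum_cnt_le (X q : ℕ) (S : Finset ℕ) :
    ∑ a ∈ S, (cnt Φ X q a : ℝ) ≤ S.card * ((X : ℝ) / q + 1) := by
  refine (sum_le_sum (fun a _ => cnt_le_real X q a)).trans ?_
  rw [sum_const, nsmul_eq_mul]

/-- one modulus: if few classes deviate from `F`, then `F` is the average -/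
theorem near_avg [Quad Φ] (δ F : ℝ) (hδ0 : 0 < δ) (hδ : δ ≤ 1 / 8) (X q : ℕ) (hq : 1 ≤ q)
    (hG : 0 < cnt Φ X 1 0) (h1 : ((dv Φ δ F X q).card : ℝ) ≤ δ / 4 * cls Φ q)
    (h2 : ((dv Φ δ F X q).card : ℝ) * ((X : ℝ) / q + 1) + Real.sqrt q ≤ δ / 4 * cnt Φ X 1 0) :
    0 < F ∧ |(cnt Φ X 1 0 : ℝ) - cls Φ q * F| ≤ 2 * δ * cnt Φ X 1 0 := by
  classical
  have hc0 : (0 : ℝ) < cls Φ q := by exact_mod_cast cls_pos q hq
  have hGr : (0 : ℝ) < cnt Φ X 1 0 := by exact_mod_cast hG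
  set N := (range q).filter (fun a : ℕ => ¬ Nat.Coprime (Φ a) q) with hN
  set A := (range q).filter (fun a : ℕ => Nat.Coprime (Φ a) q) with hA
  set D := dv Φ δ F X q with hD
  set R := A.filter (fun a : ℕ => ¬ (δ * F ≤ |(cnt Φ X q a : ℝ) - F|)) with hR
  have hDA : D = A.filter (fun a : ℕ => δ * F ≤ |(cnt Φ X q a : ℝ) - F|) := by
    rw [hD, hA, filter_filter]
    unfold dv
    rfl
  have hcard : (D.card : ℝ) + R.card = cls Φ q := by
    rw [hDA, hR]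
    have := card_filter_add_card_filter_not (s := A) (fun a : ℕ => δ * F ≤ |(cnt Φ X q a : ℝ) - F|)
    have h3 : A.card = cls Φ q := rfl
    rw [← h3]
    exact_mod_cast this
  have hsum : (cnt Φ X 1 0 : ℝ) = ∑ a ∈ D, (cnt Φ X q a : ℝ) + ∑ a ∈ R, (cnt Φ X q a : ℝ) +
      ∑ a ∈ N, (cnt Φ X q a : ℝ) := by
    rw [hDA, hR, sum_filter_add_sum_filter_not, hA, hN, sum_filter_add_sum_filter_not]
    exact_mod_cast (sum_cnt X q hq).symm
  have hRc : (1 - δ / 4) * cls Φ q ≤ R.card := by linarith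
  have hRc2 : (R.card : ℝ) ≤ cls Φ q := by
    have : (0 : ℝ) ≤ D.card := Nat.cast_nonneg _
    linarith
  have hRpos : (0 : ℝ) < R.card := by
    refine lt_of_lt_of_le ?_ hRc
    apply mul_pos _ hc0
    linarith
  have hF : 0 < F := by
    have h3 : R.Nonempty := by
      rw [← card_pos]
      exact_mod_cast hRpos
    obtain ⟨a, ha⟩ := h3
    rw [hR, mem_filter] at ha
    have h4 := lt_of_le_of_lt (abs_nonneg _) (not_le.1 ha.2)
    exact (pos_iff_pos_of_mul_pos h4).1 hδ0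
  have hnear : |∑ a ∈ R, (cnt Φ X q a : ℝ) - R.card * F| ≤ R.card * (δ * F) := by
    apply sum_near
    intro a ha
    rw [hR, mem_filter] at ha
    exact (not_le.1 ha.2).le
  have hE1 : ∑ a ∈ D, (cnt Φ X q a : ℝ) ≤ D.card * ((X : ℝ) / q + 1) := sum_cnt_le X q D
  have hE2 : ∑ a ∈ N, (cnt Φ X q a : ℝ) ≤ Real.sqrt q := by
    have h3 := nonadm X q hq N (filter_subset _ _) (fun a ha => by
      rw [hN, mem_filter] at ha
      exact ha.2)
    refine le_trans ?_ (sqrt_le_real q)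
    exact_mod_cast h3
  have hE3 : 0 ≤ ∑ a ∈ D, (cnt Φ X q a : ℝ) := sum_nonneg (fun _ _ => Nat.cast_nonneg _)
  have hE4 : 0 ≤ ∑ a ∈ N, (cnt Φ X q a : ℝ) := sum_nonneg (fun _ _ => Nat.cast_nonneg _)
  rw [abs_le] at hnear
  refine ⟨hF, ?_⟩
  apply alg1 hδ0 hδ hGr hF.le hRc2 hRc
  · have h5 : (1 - δ) * (R.card * F) = R.card * F - R.card * (δ * F) := by ring
    linarith [hnear.1]
  · have h5 : (1 + δ) * (R.card * F) = R.card * F + R.card * (δ * F) := by ring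
    linarith [hnear.2]

theorem bd_sub_dv [Quad Φ] (δ F : ℝ) (hδ0 : 0 < δ) (hδ : δ ≤ 1 / 8) (X q : ℕ) (hq : 1 ≤ q)
    (hG : 0 < cnt Φ X 1 0) (h1 : ((dv Φ δ F X q).card : ℝ) ≤ δ / 4 * cls Φ q)
    (h2 : ((dv Φ δ F X q).card : ℝ) * ((X : ℝ) / q + 1) + Real.sqrt q ≤ δ / 4 * cnt Φ X 1 0) :
    bd Φ (4 * δ) X q ⊆ dv Φ δ F X q := by
  classical
  obtain ⟨hF, hav⟩ := near_avg δ F hδ0 hδ X q hq hG h1 h2
  intro a ha
  unfold bd at ha
  rw [mem_filter] at ha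
  unfold dv
  rw [mem_filter]
  refine ⟨ha.1, ha.2.1, ?_⟩
  by_contra hc
  push Not at hc
  apply ha.2.2
  have hc0 : (0 : ℝ) < cls Φ q := by exact_mod_cast cls_pos q hq
  have hGr : (0 : ℝ) < cnt Φ X 1 0 := by exact_mod_cast hG
  have h3 : |F - cnt Φ X 1 0 / cls Φ q| ≤ 2 * δ * (cnt Φ X 1 0 / cls Φ q) := by
    have h4 : F - cnt Φ X 1 0 / cls Φ q = -(((cnt Φ X 1 0 : ℝ) - cls Φ q * F) / cls Φ q) := by
      field_simp
      ring
    rw [h4, abs_neg, abs_div, abs_of_pos hc0, mul_div_assoc']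
    exact div_le_div_of_nonneg_right hav hc0.le
  have h5 : (cnt Φ X q a : ℝ) - cnt Φ X 1 0 / cls Φ q =
      ((cnt Φ X q a : ℝ) - F) + (F - cnt Φ X 1 0 / cls Φ q) := by ring
  rw [h5]
  refine (abs_add_le _ _).trans ?_
  have h6 : 0 < (cnt Φ X 1 0 : ℝ) / cls Φ q := by positivity
  generalize (cnt Φ X 1 0 : ℝ) / cls Φ q = g at *
  have h7 := (abs_le.1 h3).2
  have h8 : F ≤ 2 * g := by
    have := mul_le_mul_of_nonneg_right hδ h6.le
    linarith
  have h9 : δ * F ≤ δ * (2 * g) := mul_le_mul_of_nonneg_left h8 hδ0.le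
  linarith

theorem bd_mono {δ δ' : ℝ} (h : δ ≤ δ') (X q : ℕ) : bd Φ δ' X q ⊆ bd Φ δ X q := by
  classical
  intro a ha
  unfold bd at ha ⊢
  rw [mem_filter] at ha ⊢
  refine ⟨ha.1, ha.2.1, fun h1 => ha.2.2 (h1.trans ?_)⟩
  exact mul_le_mul_of_nonneg_right h (by positivity)

/-- a small modulus from a large multiple of it -/
theorem small_of_large [Quad Φ] (δ : ℝ) (hδ0 : 0 < δ) (X q s a : ℕ) (hq : 1 ≤ q)
    (hs : 1 ≤ s) (hqs : Nat.Coprime q s) (ha : Nat.Coprime (Φ a) q) (m : ℝ)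
    (hm : ((bd Φ (4 * δ) X (q * s)).card : ℝ) ≤ m) (h1 : m ≤ δ / 4 * cls Φ s)
    (h2 : m * ((X : ℝ) / ((q * s : ℕ) : ℝ) + 1) + Real.sqrt ((q * s : ℕ) : ℝ) ≤
      δ / 4 * (cnt Φ X 1 0 / q)) :
    |(cnt Φ X q a : ℝ) - cnt Φ X 1 0 / cls Φ q| ≤ 5 * δ * (cnt Φ X 1 0 / cls Φ q) := by
  classical
  have hc0 : (0 : ℝ) < cls Φ q := by exact_mod_cast cls_pos q hq
  have hs0 : (0 : ℝ) < cls Φ s := by exact_mod_cast cls_pos s hs
  have hqs1 : 1 ≤ q * s := Nat.mul_pos hq hs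
  set W := (range (q * s)).filter (fun b => b ≡ a [MOD q]) with hW
  set N := W.filter (fun b : ℕ => ¬ Nat.Coprime (Φ b) (q * s)) with hN
  set A := W.filter (fun b : ℕ => Nat.Coprime (Φ b) (q * s)) with hA
  set D := A.filter (fun b : ℕ => b ∈ bd Φ (4 * δ) X (q * s)) with hD
  set R := A.filter (fun b : ℕ => ¬ b ∈ bd Φ (4 * δ) X (q * s)) with hR
  have hcard : (D.card : ℝ) + R.card = cls Φ s := by
    have := card_filter_add_card_filter_not (s := A) (fun b : ℕ => b ∈ bd Φ (4 * δ) X (q * s))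
    have h3 : A.card = cls Φ s := lift_card q s a hq hs hqs ha
    rw [← h3, hD, hR]
    exact_mod_cast this
  have hsum : (cnt Φ X q a : ℝ) = ∑ b ∈ D, (cnt Φ X (q * s) b : ℝ) + ∑ b ∈ R, (cnt Φ X (q * s) b : ℝ) +
      ∑ b ∈ N, (cnt Φ X (q * s) b : ℝ) := by
    rw [hD, hR, sum_filter_add_sum_filter_not, hA, hN, sum_filter_add_sum_filter_not]
    exact_mod_cast cnt_split X q s a hq hs
  have hDm : (D.card : ℝ) ≤ m := by
    refine le_trans ?_ hm
    have : D ⊆ bd Φ (4 * δ) X (q * s) := by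
      intro b hb
      rw [hD, mem_filter] at hb
      exact hb.2
    exact_mod_cast card_le_card this
  set g : ℝ := cnt Φ X 1 0 / cls Φ (q * s) with hg
  have hg0 : 0 ≤ g := by positivity
  have hM : (cnt Φ X 1 0 : ℝ) / cls Φ q = cls Φ s * g := by
    rw [hg, cls_mul q s hq hs hqs]
    field_simp
  have hnear : |∑ b ∈ R, (cnt Φ X (q * s) b : ℝ) - R.card * g| ≤ R.card * (4 * δ * g) := by
    apply sum_near
    intro b hb
    rw [hR, mem_filter, hA, mem_filter, hW, mem_filter] at hb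
    by_contra hc
    apply hb.2
    unfold bd
    rw [mem_filter]
    exact ⟨hb.1.1.1, hb.1.2, hc⟩
  have hpos : (0 : ℝ) ≤ (X : ℝ) / ((q * s : ℕ) : ℝ) + 1 := by positivity
  have hE1 : ∑ b ∈ D, (cnt Φ X (q * s) b : ℝ) ≤ m * ((X : ℝ) / ((q * s : ℕ) : ℝ) + 1) :=
    (sum_cnt_le X (q * s) D).trans (mul_le_mul_of_nonneg_right hDm hpos)
  have hE2 : ∑ b ∈ N, (cnt Φ X (q * s) b : ℝ) ≤ Real.sqrt ((q * s : ℕ) : ℝ) := by
    have h3 := nonadm X (q * s) hqs1 N ((filter_subset _ _).trans (filter_subset _ _))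
      (fun b hb => by
        rw [hN, mem_filter] at hb
        exact hb.2)
    refine le_trans ?_ (sqrt_le_real (q * s))
    exact_mod_cast h3
  have hE3 : 0 ≤ ∑ b ∈ D, (cnt Φ X (q * s) b : ℝ) := sum_nonneg (fun _ _ => Nat.cast_nonneg _)
  have hE4 : 0 ≤ ∑ b ∈ N, (cnt Φ X (q * s) b : ℝ) := sum_nonneg (fun _ _ => Nat.cast_nonneg _)
  have h3 : (cnt Φ X 1 0 : ℝ) / q ≤ cls Φ s * g := by
    rw [← hM]
    apply div_le_div_of_nonneg_left (Nat.cast_nonneg _) hc0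
    exact_mod_cast cls_le q
  rw [hM]
  rw [abs_le] at hnear
  have hRle : (R.card : ℝ) ≤ cls Φ s := by
    have : (0 : ℝ) ≤ D.card := Nat.cast_nonneg _
    linarith
  have h4 : (R.card : ℝ) * (4 * δ * g) ≤ cls Φ s * (4 * δ * g) :=
    mul_le_mul_of_nonneg_right hRle (by positivity)
  have h5 : (D.card : ℝ) * g ≤ δ / 4 * (cls Φ s * g) := by
    calc (D.card : ℝ) * g ≤ m * g := mul_le_mul_of_nonneg_right hDm hg0
      _ ≤ δ / 4 * cls Φ s * g := mul_le_mul_of_nonneg_right h1 hg0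
      _ = δ / 4 * (cls Φ s * g) := by ring
  have h6 : (R.card : ℝ) * g = cls Φ s * g - D.card * g := by
    rw [← hcard]; ring
  have h7 : δ / 4 * ((cnt Φ X 1 0 : ℝ) / q) ≤ δ / 4 * (cls Φ s * g) :=
    mul_le_mul_of_nonneg_left h3 (by positivity)
  have h8 : (cls Φ s : ℝ) * (4 * δ * g) = 4 * (δ * (cls Φ s * g)) := by ring
  have h9 : δ / 4 * (cls Φ s * g) = (δ * (cls Φ s * g)) / 4 := by ring
  have h10 : 5 * δ * (cls Φ s * g) = 5 * (δ * (cls Φ s * g)) := by ring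
  have h11 : 0 ≤ δ * (cls Φ s * g) := by positivity
  have h12 : 0 ≤ (D.card : ℝ) * g := by positivity
  rw [hsum, abs_le]
  constructor
  · linarith [hnear.1]
  · linarith [hnear.2]

end Pool.Agent.H40.NE
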