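import Mathlib

/-!
Primes `Φ n` in progressions: counting functions and two ways of counting a matrix.
-/

set_option autoImplicit false

namespace Pool.Agent.H40.NE

open Finset

/-- what is used of a quadratic polynomial -/
class Quad (Φ : ℕ → ℕ) : Prop where
  per : ∀ m n, Φ (n + m) ≡ Φ n [MOD m]
  big : ∀ n, n ^ 2 + 1 ≤ Φ n
  le_two : ∀ p, p.Prime → ((range p).filter (fun m : ℕ => p ∣ Φ m)).card ≤ 2
  at_two : ((range 2).filter (fun m : ℕ => 2 ∣ Φ m)).card ≤ 1

variable {Φ : ℕ → ℕ}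

theorem Quad.congr [Quad Φ] {m a b : ℕ} (h : a ≡ b [MOD m]) : Φ a ≡ Φ b [MOD m] := by
  have key : ∀ (n k : ℕ), Φ (n + m * k) ≡ Φ n [MOD m] := by
    intro n k
    induction k with
    | zero => simp [Nat.ModEq]
    | succ k ih =>
      have e : n + m * (k + 1) = n + m * k + m := by ring
      rw [e]
      exact (Quad.per m _).trans ih
  rcases le_total a b with hab | hab
  · obtain ⟨k, hk⟩ := (Nat.modEq_iff_dvd' hab).1 h
    have e : b = a + m * k := by omega
    rw [e]
    exact (key a k).symm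
  · obtain ⟨k, hk⟩ := (Nat.modEq_iff_dvd' hab).1 h.symm
    have e : a = b + m * k := by omega
    rw [e]
    exact key b k

/-- number of `1 ≤ n ≤ X`, `n ≡ a mod q`, with `Φ n` prime -/
def cnt (Φ : ℕ → ℕ) (X q a : ℕ) : ℕ := ((Icc 1 X).filter (fun n : ℕ => n ≡ a [MOD q] ∧ (Φ n).Prime)).card

/-- number of the admissible residue classes modulo `q` -/
def cls (Φ : ℕ → ℕ) (q : ℕ) : ℕ := ((range q).filter (fun b : ℕ => Nat.Coprime (Φ b) q)).card

theorem cls_le (q : ℕ) : cls Φ q ≤ q := by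
  unfold cls
  exact (card_filter_le _ _).trans (card_range q).le

theorem cls_one : cls Φ 1 = 1 := by
  unfold cls
  simp

theorem cnt_mono {X Y : ℕ} (h : X ≤ Y) (q a : ℕ) : cnt Φ X q a ≤ cnt Φ Y q a := by
  unfold cnt
  exact card_le_card (filter_subset_filter _ (Icc_subset_Icc_right h))

theorem cnt_le_self (X q a : ℕ) : cnt Φ X q a ≤ X := by
  unfold cnt
  refine (card_filter_le _ _).trans ?_
  simp

theorem cnt_le_one (X q a : ℕ) : cnt Φ X q a ≤ cnt Φ X 1 0 := by
  unfold cnt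
  apply card_le_card
  intro n hn
  rw [mem_filter] at hn ⊢
  exact ⟨hn.1, Nat.modEq_one, hn.2.2⟩

theorem cnt_le_div (X q a : ℕ) : cnt Φ X q a ≤ X / q + 1 := by
  unfold cnt
  have h1 : ((Icc 1 X).filter (fun n : ℕ => n ≡ a [MOD q] ∧ (Φ n).Prime)).card ≤
      (range (X / q + 1)).card := by
    refine card_le_card_of_injOn (fun n => n / q) ?_ ?_
    · intro n hn
      rw [mem_coe, mem_filter, mem_Icc] at hn
      rw [mem_coe, mem_range]
      exact Nat.lt_succ_of_le (Nat.div_le_div_right hn.1.2)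
    · intro m hm n hn h
      rw [mem_coe, mem_filter] at hm hn
      have h2 : m % q = n % q := hm.2.1.trans hn.2.1.symm
      simp only at h
      rw [← Nat.div_add_mod m q, ← Nat.div_add_mod n q, h, h2]
  rwa [card_range] at h1

/-- the sum over the classes -/
theorem sum_cnt (X q : ℕ) (hq : 1 ≤ q) : ∑ a ∈ range q, cnt Φ X q a = cnt Φ X 1 0 := by
  unfold cnt
  have h := card_eq_sum_card_fiberwise (f := fun n : ℕ => n % q) (t := range q)
    (s := (Icc 1 X).filter (fun n : ℕ => n ≡ 0 [MOD 1] ∧ Nat.Prime (Φ n))) (by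
      intro n _
      rw [mem_coe, mem_range]
      exact Nat.mod_lt _ hq)
  rw [h]
  refine sum_congr rfl fun a ha => ?_
  rw [mem_range] at ha
  congr 1
  ext n
  simp only [mem_filter, mem_Icc]
  constructor
  · rintro ⟨h1, h2, h3⟩
    refine ⟨⟨h1, Nat.modEq_one, h3⟩, ?_⟩
    rw [h2, Nat.mod_eq_of_lt ha]
  · rintro ⟨⟨h1, _, h3⟩, h2⟩
    exact ⟨h1, by rw [Nat.ModEq, h2, Nat.mod_eq_of_lt ha], h3⟩

/-- one row of the matrix -/
def row (Φ : ℕ → ℕ) (X q d : ℕ) : ℕ := ((Icc q X).filter (fun n : ℕ => (Φ n).Prime ∧ d ∣ n % q)).card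

/-- admissible classes divisible by `d` -/
def adm (Φ : ℕ → ℕ) (q d : ℕ) : Finset ℕ := (range q).filter (fun a : ℕ => d ∣ a ∧ Nat.Coprime (Φ a) q)

/-- primes at least `q` lie in admissible classes -/
theorem mod_coprime [Quad Φ] {q n : ℕ} (hq : 1 ≤ q) (h : q ≤ n) (hp : (Φ n).Prime) :
    Nat.Coprime (Φ (n % q)) q := by
  by_contra hc
  obtain ⟨p, hpp, h1, h2⟩ := Nat.Prime.not_coprime_iff_dvd.1 hc
  have h3 : p ∣ Φ n := by
    have h4 : n % q ≡ n [MOD p] := (Nat.mod_modEq n q).of_dvd h2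
    exact ((Quad.congr h4).dvd_iff (dvd_refl p)).1 h1
  have h5 : p = Φ n := (Nat.prime_dvd_prime_iff_eq hpp hp).1 h3
  have h6 : p ≤ q := Nat.le_of_dvd hq h2
  have h7 := Quad.big (Φ := Φ) n
  nlinarith [Nat.zero_le n]

theorem row_le [Quad Φ] (X q d : ℕ) (hq : 1 ≤ q) : row Φ X q d ≤ ∑ a ∈ adm Φ q d, cnt Φ X q a := by
  unfold row
  have h := card_eq_sum_card_fiberwise (f := fun n : ℕ => n % q) (t := adm Φ q d)
    (s := (Icc q X).filter (fun n : ℕ => Nat.Prime (Φ n) ∧ d ∣ n % q)) (by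
      intro n hn
      rw [mem_coe, mem_filter, mem_Icc] at hn
      rw [mem_coe, adm, mem_filter, mem_range]
      exact ⟨Nat.mod_lt _ hq, hn.2.2, mod_coprime hq hn.1.1 hn.2.1⟩)
  rw [h]
  refine sum_le_sum fun a _ => ?_
  unfold cnt
  apply card_le_card
  intro n hn
  simp only [mem_filter, mem_Icc] at hn ⊢
  exact ⟨⟨by omega, hn.1.1.2⟩, by rw [Nat.ModEq, hn.2, ← hn.2, Nat.mod_mod], hn.1.2.1⟩

theorem le_row (X q d : ℕ) : ∑ a ∈ adm Φ q d, cnt Φ X q a ≤ row Φ X q d + (adm Φ q d).card := by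
  unfold row
  have h0 : ∑ a ∈ adm Φ q d, cnt Φ X q a ≤ ∑ a ∈ adm Φ q d,
      (((Icc q X).filter (fun n : ℕ => (Nat.Prime (Φ n) ∧ d ∣ n % q) ∧ n % q = a)).card + 1) := by
    refine sum_le_sum fun a ha => ?_
    rw [adm, mem_filter, mem_range] at ha
    unfold cnt
    have h1 : (Icc 1 X).filter (fun n : ℕ => n ≡ a [MOD q] ∧ Nat.Prime (Φ n)) ⊆
        insert a ((Icc q X).filter (fun n : ℕ => (Nat.Prime (Φ n) ∧ d ∣ n % q) ∧ n % q = a)) := by
      intro n hn
      simp only [mem_filter, mem_Icc, mem_insert] at hn ⊢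
      have h2 : n % q = a := by
        have := hn.2.1
        rwa [Nat.ModEq, Nat.mod_eq_of_lt ha.1] at this
      by_cases h : n < q
      · left
        rw [← h2, Nat.mod_eq_of_lt h]
      · right
        exact ⟨⟨by omega, hn.1.2⟩, ⟨hn.2.2, by rw [h2]; exact ha.2.1⟩, h2⟩
    exact (card_le_card h1).trans (card_insert_le _ _)
  refine h0.trans ?_
  rw [sum_add_distrib, sum_const, smul_eq_mul, mul_one]
  apply Nat.add_le_add_right
  have h3 : ∑ a ∈ adm Φ q d,
      ((Icc q X).filter (fun n : ℕ => (Nat.Prime (Φ n) ∧ d ∣ n % q) ∧ n % q = a)).card ≤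
      ((Icc q X).filter (fun n : ℕ => Nat.Prime (Φ n) ∧ d ∣ n % q)).card := by
    rw [← card_biUnion]
    · apply card_le_card
      intro n hn
      simp only [mem_biUnion, mem_filter] at hn ⊢
      obtain ⟨a, _, h1, h2, _⟩ := hn
      exact ⟨h1, h2⟩
    · intro a _ b _ hab
      rw [Function.onFun, disjoint_left]
      intro n hn hn'
      simp only [mem_filter] at hn hn'
      exact hab (hn.2.2.symm.trans hn'.2.2)
  exact h3

/-- a row cut into blocks of length `q` -/
theorem row_col (X q d S : ℕ) (hq : 1 < q) (hd : q ≡ 1 [MOD d]) (hS : X / q ≤ S) :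
    (row Φ X q d : ℤ) = ∑ s ∈ Icc 1 S, ((cnt Φ (min (q * (s + 1) - 1) X) d s : ℤ) -
      cnt Φ (min (q * s - 1) X) d s) := by
  unfold row
  have h := card_eq_sum_card_fiberwise (f := fun n : ℕ => n / q) (t := Icc 1 S)
    (s := (Icc q X).filter (fun n : ℕ => Nat.Prime (Φ n) ∧ d ∣ n % q)) (by
      intro n hn
      rw [mem_coe, mem_filter, mem_Icc] at hn
      rw [mem_coe, mem_Icc]
      exact ⟨(Nat.one_le_div_iff (by omega)).2 hn.1.1, (Nat.div_le_div_right hn.1.2).trans hS⟩)
  rw [h]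
  push_cast
  refine sum_congr rfl fun s hs => ?_
  rw [mem_Icc] at hs
  rw [eq_sub_iff_add_eq]
  norm_cast
  unfold cnt
  rw [← card_union_of_disjoint]
  · congr 1
    ext n
    simp only [mem_union, mem_filter, mem_Icc]
    have hqs : 1 ≤ q * s := Nat.mul_pos (by omega) hs.1
    have hqs1 : q * (s + 1) = q * s + q := by ring
    constructor
    · rintro (⟨⟨⟨h1, h2⟩, h3, h4⟩, h5⟩ | ⟨⟨h1, h2⟩, h3, h4⟩)
      · have h6 : n < q * (s + 1) := by
          rw [← h5]; exact Nat.lt_mul_div_succ n (by omega)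
        refine ⟨⟨by omega, ?_⟩, ?_, h3⟩
        · rw [le_min_iff]
          exact ⟨by omega, h2⟩
        · have h7 := Nat.div_add_mod n q
          rw [h5] at h7
          have h8 : n ≡ q * s [MOD d] := by
            rw [← h7]
            have h9 : n % q ≡ 0 [MOD d] := (Nat.modEq_zero_iff_dvd).2 h4
            simpa using h9.add_left (q * s)
          refine h8.trans ?_
          have := hd.mul_right s
          rwa [one_mul] at this
      · rw [le_min_iff] at h2
        refine ⟨⟨h1, ?_⟩, h3, h4⟩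
        rw [le_min_iff]
        exact ⟨by omega, h2.2⟩
    · rintro ⟨⟨h1, h2⟩, h3, h4⟩
      rw [le_min_iff] at h2
      by_cases hn : n ≤ q * s - 1
      · right
        exact ⟨⟨h1, le_min hn h2.2⟩, h3, h4⟩
      · left
        have h5 : n / q = s := by
          rw [Nat.div_eq_iff (by omega)]
          constructor
          · rw [mul_comm]; omega
          · rw [mul_comm]; omega
        refine ⟨⟨⟨?_, h2.2⟩, h4, ?_⟩, h5⟩
        · have : q * 1 ≤ q * s := Nat.mul_le_mul_left q hs.1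
          omega
        · have h7 := Nat.div_add_mod n q
          rw [h5] at h7
          have h8 : q * s ≡ s [MOD d] := by
            have := hd.mul_right s
            rwa [one_mul] at this
          have h9 : q * s + n % q ≡ q * s + 0 [MOD d] := by
            rw [h7, add_zero]
            exact h3.trans h8.symm
          exact (Nat.modEq_zero_iff_dvd).1 (Nat.ModEq.add_left_cancel' _ h9)
  · rw [disjoint_left]
    intro n hn hn'
    simp only [mem_filter, mem_Icc] at hn hn'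
    have h1 : n ≤ q * s - 1 := hn'.1.2.trans (min_le_left _ _)
    have h2 : q * s ≤ n := by
      rw [← hn.2]
      exact Nat.mul_div_le n q
    have hqs : 1 ≤ q * s := Nat.mul_pos (by omega) hs.1
    omega

/-- the columns of the inadmissible classes are empty -/
theorem col_zero [Quad Φ] (q d s : ℕ) (hd : 0 < d) (hdq : d < q) (hs : ¬ Nat.Coprime (Φ s) d) (X Y : ℕ)
    (hXY : q - 1 ≤ X) (h : X ≤ Y) : cnt Φ Y d s = cnt Φ X d s := by
  refine le_antisymm ?_ (cnt_mono h d s)
  unfold cnt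
  apply card_le_card
  intro n hn
  simp only [mem_filter, mem_Icc] at hn ⊢
  refine ⟨⟨hn.1.1, ?_⟩, hn.2⟩
  by_contra hX
  have hqn : d ≤ n := by omega
  have h1 := mod_coprime hd hqn hn.2.2
  apply hs
  have h2 : n % d ≡ s [MOD d] := (Nat.mod_modEq n d).trans hn.2.1
  have h3 := (Quad.congr (Φ := Φ) h2).gcd_eq
  unfold Nat.Coprime at h1 ⊢
  rw [← h3]
  exact h1

end Pool.Agent.H40.NE
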