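import Pool.Agent.H40.NE.Inst

/-!
# No even distribution for large moduli: admissible quadratic polynomials
-/

set_option autoImplicit false

namespace Pool.Agent.H40.NE

open Finset Filter Topology
open Pool.Agent.H40.QU (sh F F_cast F_ge sys pc gcd_congr F_cop)
open Pool.Agent.K4H14.FG (win mo polylog)

theorem assemble {Φ : ℕ → ℕ} [Quad Φ] (K : ℝ) (hK : 1 ≤ K) (hup : ∀ n : ℕ, (Φ n : ℝ) ≤ K * (n + 1) ^ 2)
    (hwins : ∀ N : ℕ, 1 ≤ N → ∀ᶠ z : ℝ in atTop, ∀ j ∈ range N, ∏ p ∈ win z N j, lf Φ p ≤ 1 - 1 / (4 * N))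
    (B : ℕ) (ε : ℝ) (hε : 0 < ε) (δ : ℝ) (hd0 : 0 < δ) (hd1 : δ ≤ 1 / 500)
    (hd2 : 2 ^ (12 * B + 42) * (54 * (5 * δ)) < (1 / (4 * ((12 * B + 42 : ℕ) : ℝ))) ^ (12 * B + 42)) :
    ∃ x₀ : ℕ, ∀ x : ℕ, x₀ ≤ x → ∃ X : ℕ, x ≤ X ∧
      (X : ℝ) ≤ x * Real.log x ^ (3 * B + 11) ∧
      ∀ G : ℕ → ℝ, (X : ℝ) ^ (2 - ε) ≤ ∑ q ∈ mo B X, ((dv Φ δ (G q) X q).card : ℝ) := by
  classical
  obtain ⟨ε', hε', hε'1, hε'2⟩ : ∃ ε' : ℝ, 0 < ε' ∧ ε' ≤ 1 ∧ ε' ≤ ε :=
    ⟨min ε 1, by positivity, min_le_right _ _, min_le_left _ _⟩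
  obtain ⟨x₁, hx₁⟩ := main_aux K hK hup hwins B (ε' / 64) (by positivity) (by linarith) (5 * δ)
    (by positivity) (by linarith)
  obtain ⟨x₃, hx₃⟩ := eventually_atTop.1 (transfer (Φ := Φ) B ε' hε' hε'1 δ hd0 (by linarith))
  have hlog : Tendsto (fun X : ℕ => Real.log X) atTop atTop :=
    Real.tendsto_log_atTop.comp tendsto_natCast_atTop_atTop
  obtain ⟨x₂, hx₂⟩ := eventually_atTop.1 ((hlog.eventually_ge_atTop (64 * 4 ^ (3 * B + 10))).and
    (hlog.eventually_ge_atTop 1))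
  refine ⟨x₁ + x₂ + x₃ + 2, fun x hx => ?_⟩
  by_contra hcon
  push Not at hcon
  obtain ⟨hlx, hlx1⟩ := hx₂ x (by omega)
  have hx0 : (2 : ℝ) ≤ x := by exact_mod_cast (by omega : 2 ≤ x)
  apply absurd (hx₁ (2 * x) (by omega) ?_) (not_le.2 hd2)
  intro X hX1 hX2
  have hxX : x ≤ X := by omega
  have hXup : (X : ℝ) ≤ x * Real.log x ^ (3 * B + 11) := by
    refine hX2.trans ?_
    have h1 : Real.log ((2 * x : ℕ) : ℝ) ≤ 2 * Real.log x := by
      have h2 : (2 : ℝ) * Real.log x = Real.log ((x : ℝ) ^ 2) := by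
        rw [Real.log_pow]; norm_num
      rw [h2]
      apply Real.log_le_log (by push_cast; linarith)
      push_cast
      nlinarith
    have h0 : 0 ≤ Real.log ((2 * x : ℕ) : ℝ) := Real.log_natCast_nonneg _
    calc 32 * (2 * Real.log ((2 * x : ℕ) : ℝ)) ^ (3 * B + 10) * ((2 * x : ℕ) : ℝ) ≤
        32 * (2 * (2 * Real.log x)) ^ (3 * B + 10) * ((2 * x : ℕ) : ℝ) := by gcongr
      _ = x * ((64 * 4 ^ (3 * B + 10)) * Real.log x ^ (3 * B + 10)) := by
          have : (2 * (2 * Real.log x)) = 4 * Real.log x := by ring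
          rw [this, mul_pow]
          push_cast
          ring
      _ ≤ x * (Real.log x * Real.log x ^ (3 * B + 10)) := by gcongr
      _ = x * Real.log x ^ (3 * B + 11) := by ring
  obtain ⟨G, c2⟩ := hcon X hxX hXup
  have hX0 : (1 : ℝ) ≤ X := by
    have : 1 ≤ X := by omega
    exact_mod_cast this
  have hsum : (∑ q ∈ mo B X, ((dv Φ δ (G q) X q).card : ℝ)) < (X : ℝ) ^ (2 - ε') := by
    refine lt_of_lt_of_le c2 ?_
    exact Real.rpow_le_rpow_of_exponent_le hX0 (by linarith)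
  exact hx₃ X (by omega) G hsum

open Classical in
/-- the pairs `(q, r)` with `q (log X) ^ B ≤ X`, `r < q`, `f(r)` prime to `q`, for which the number of the primes
`f(m)`, `m ≤ X`, `m ≡ r (mod q)` differs from `G q` by at least `δ G q` -/
noncomputable def dp (a b c : ℤ) (δ : ℝ) (G : ℕ → ℝ) (B X : ℕ) : Finset (ℕ × ℕ) :=
  ((Icc 1 X) ×ˢ (range X)).filter (fun p : ℕ × ℕ =>
    p.2 < p.1 ∧ (p.1 : ℝ) * Real.log X ^ B ≤ X ∧ Int.gcd (QU.val a b c p.2) p.1 = 1 ∧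
      δ * G p.1 ≤ |(pc a b c 0 X p.1 p.2 : ℝ) - G p.1|)

/-- the classes which contain an element near the ends -/
def ends (s X : ℕ) : Finset (ℕ × ℕ) :=
  (Icc 1 X).biUnion (fun q => ((Ioc 0 s) ∪ (Ioc X (X + s))).image (fun m => (q, m % q)))

theorem ends_card (s X : ℕ) : (ends s X).card ≤ X * (2 * s) := by
  unfold ends
  refine card_biUnion_le.trans ?_
  have h : ∀ q ∈ Icc 1 X, (((Ioc 0 s) ∪ (Ioc X (X + s))).image (fun m => (q, m % q))).card ≤ 2 * s := by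
    intro q _
    refine card_image_le.trans ((card_union_le _ _).trans ?_)
    rw [Nat.card_Ioc, Nat.card_Ioc]
    omega
  refine (sum_le_card_nsmul _ _ _ h).trans ?_
  rw [Nat.card_Icc, smul_eq_mul]
  simp

theorem cnt_eq_pc (a b c : ℤ) (X q r : ℕ) (hq1 : 1 ≤ q) (hqX : q ≤ X)
    (he : (q, (r + sh b c) % q) ∉ ends (sh b c) X) :
    cnt (F a b c) X q r = pc a b c 0 X q ((r + sh b c) % q) := by
  unfold ends at he
  simp only [mem_biUnion, mem_image, mem_union, mem_Ioc, mem_Icc, Prod.mk.injEq, not_exists, not_and] at he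
  have he' : ∀ m, (0 < m ∧ m ≤ sh b c ∨ X < m ∧ m ≤ X + sh b c) → ¬ m ≡ (r + sh b c) % q [MOD q] := by
    intro m hm h
    apply he q ⟨hq1, hqX⟩ m hm rfl
    have := h
    rw [Nat.ModEq, Nat.mod_mod] at this
    exact this
  have hr : (r + sh b c) % q ≡ r + sh b c [MOD q] := Nat.mod_modEq _ _
  unfold cnt pc
  refine card_nbij' (fun n => n + sh b c) (fun n => n - sh b c) ?_ ?_ ?_ ?_
  · intro n hn
    simp only [coe_filter, mem_Icc, mem_Ioc, Set.mem_ofPred_eq] at hn ⊢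
    have h1 : n + sh b c ≡ (r + sh b c) % q [MOD q] := (hn.2.1.add_right _).trans hr.symm
    refine ⟨⟨by omega, ?_⟩, h1, hn.2.2⟩
    by_contra hc
    exact he' (n + sh b c) (Or.inr ⟨by omega, by omega⟩) h1
  · intro m hm
    simp only [coe_filter, mem_Icc, mem_Ioc, Set.mem_ofPred_eq] at hm ⊢
    have hs : sh b c < m := by
      by_contra hc
      exact he' m (Or.inl ⟨by omega, by omega⟩) hm.2.1
    have e : m - sh b c + sh b c = m := by omega
    refine ⟨⟨by omega, by omega⟩, ?_, ?_⟩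
    · apply Nat.ModEq.add_right_cancel' (sh b c)
      rw [e]
      exact hm.2.1.trans hr
    · unfold F
      rw [e]
      exact hm.2.2
  · intro n _
    simp
  · intro m hm
    simp only [coe_filter, mem_Ioc, Set.mem_ofPred_eq] at hm
    have hs : sh b c < m := by
      by_contra hc
      exact he' m (Or.inl ⟨by omega, by omega⟩) hm.2.1
    simp only
    omega

theorem dv_le_dp (a b c : ℤ) (ha : 0 < a) (δ : ℝ) (G : ℕ → ℝ) (B X : ℕ) :
    (∑ q ∈ mo B X, ((dv (F a b c) δ (G q) X q).card : ℝ)) ≤ ((dp a b c δ G B X).card : ℝ) + X * (2 * sh b c) := by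
  classical
  have h2 : ∑ q ∈ mo B X, (dv (F a b c) δ (G q) X q).card =
      ((mo B X).sigma (fun q => dv (F a b c) δ (G q) X q)).card := (card_sigma _ _).symm
  have h3 : ((mo B X).sigma (fun q => dv (F a b c) δ (G q) X q)).card ≤
      (dp a b c δ G B X ∪ ends (sh b c) X).card := by
    apply card_le_card_of_injOn (fun p => (p.1, (p.2 + sh b c) % p.1))
    · intro p hp
      simp only [coe_sigma, Set.mem_sigma_iff, mem_coe] at hp
      obtain ⟨hp1, hp2⟩ := hp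
      unfold mo at hp1
      unfold dv at hp2
      rw [mem_filter, mem_Icc] at hp1
      rw [mem_filter, mem_range] at hp2
      rw [mem_coe, mem_union]
      by_cases he : (p.1, (p.2 + sh b c) % p.1) ∈ ends (sh b c) X
      · right; exact he
      · left
        unfold dp
        have h4 : (p.2 + sh b c) % p.1 < p.1 := Nat.mod_lt _ hp1.1.1
        rw [mem_filter, mem_product, mem_Icc, mem_range]
        refine ⟨⟨hp1.1, by simp only; omega⟩, h4, hp1.2, ?_, ?_⟩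
        · rw [gcd_congr a b c (Nat.mod_modEq _ _)]
          exact (F_cop a b c ha p.2 p.1).1 hp2.2.1
        · have h5 := cnt_eq_pc a b c X p.1 p.2 hp1.1.1 hp1.1.2 he
          simp only
          rw [← h5]
          exact hp2.2.2
    · rintro ⟨q, r⟩ h1 ⟨q', r'⟩ h2 h
      simp only [Prod.mk.injEq] at h
      obtain ⟨rfl, h5⟩ := h
      simp only [coe_sigma, Set.mem_sigma_iff, mem_coe] at h1 h2
      have h3 := h1.2
      have h4 := h2.2
      unfold dv at h3 h4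
      rw [mem_filter, mem_range] at h3 h4
      have h6 : r ≡ r' [MOD q] := Nat.ModEq.add_right_cancel' _ h5
      have h7 := Nat.ModEq.eq_of_lt_of_lt h6 h3.1 h4.1
      rw [h7]
  have h4 := h3.trans ((card_union_le _ _).trans (Nat.add_le_add_left (ends_card (sh b c) X) _))
  rw [← h2] at h4
  exact_mod_cast h4

theorem final (a b c : ℤ) (ha : 0 < a) (hg : ∀ d : ℤ, d ∣ a → d ∣ b → d ∣ c → IsUnit d)
    (hD : ¬ IsSquare (b ^ 2 - 4 * a * c)) (he : ¬ (Even (a + b) ∧ Even c))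
    (B : ℕ) (ε : ℝ) (hε : 0 < ε) (δ : ℝ) (hd0 : 0 < δ) (hd1 : δ ≤ 1 / 500)
    (hd2 : 2 ^ (12 * B + 42) * (54 * (5 * δ)) < (1 / (4 * ((12 * B + 42 : ℕ) : ℝ))) ^ (12 * B + 42)) :
    ∃ x₀ : ℕ, ∀ x : ℕ, x₀ ≤ x → ∃ X : ℕ, x ≤ X ∧
      (X : ℝ) ≤ x * Real.log x ^ (3 * B + 11) ∧
      ∀ G : ℕ → ℝ, (X : ℝ) ^ (2 - ε) ≤ ((dp a b c δ G B X).card : ℝ) := by
  have : Quad (F a b c) := quad a b c ha hg he
  obtain ⟨K, hK, hup⟩ := F_up a b c ha
  obtain ⟨ε', hε', hε'1, hε'2⟩ : ∃ ε' : ℝ, 0 < ε' ∧ ε' ≤ 1 ∧ ε' ≤ ε :=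
    ⟨min ε 1, by positivity, min_le_right _ _, min_le_left _ _⟩
  obtain ⟨x₁, hx₁⟩ := assemble (Φ := F a b c) K hK hup (fun N hN => F_win a b c ha hD N hN) B (ε' / 2)
    (by positivity) δ hd0 hd1 hd2
  obtain ⟨x₂, hx₂⟩ := eventually_atTop.1 (polylog 0 (1 + 2 * sh b c) (ε' / 2) (by positivity))
  refine ⟨x₁ + x₂ + 1, fun x hx => ?_⟩
  obtain ⟨X, hX1, hX2, hX3⟩ := hx₁ x (by omega)
  refine ⟨X, hX1, hX2, fun G => ?_⟩
  have h1 := (hX3 G).trans (dv_le_dp a b c ha δ G B X)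
  have h2 := hx₂ X (by omega)
  rw [pow_zero, mul_one] at h2
  have hXr : (1 : ℝ) ≤ X := by exact_mod_cast (by omega : 1 ≤ X)
  have hX0 : (0 : ℝ) < X := by linarith
  have h3 : (X : ℝ) ^ (2 - ε' / 2) = (X : ℝ) ^ (2 - ε') * (X : ℝ) ^ (ε' / 2) := by
    rw [← Real.rpow_add hX0]
    congr 1
    ring
  have h4 : (X : ℝ) ≤ (X : ℝ) ^ (2 - ε') := by
    calc (X : ℝ) = (X : ℝ) ^ (1 : ℝ) := (Real.rpow_one _).symm
      _ ≤ (X : ℝ) ^ (2 - ε') := Real.rpow_le_rpow_of_exponent_le hXr (by linarith)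
  have h5 : (X : ℝ) ^ (2 - ε) ≤ (X : ℝ) ^ (2 - ε') :=
    Real.rpow_le_rpow_of_exponent_le hXr (by linarith)
  refine h5.trans ?_
  have h6 : (X : ℝ) ^ (2 - ε') * (1 + 2 * sh b c) ≤ (X : ℝ) ^ (2 - ε' / 2) := by
    rw [h3]
    exact mul_le_mul_of_nonneg_left h2 (by positivity)
  have h7 : (0 : ℝ) ≤ sh b c := Nat.cast_nonneg _
  have h8 := mul_le_mul_of_nonneg_right h4 (by linarith : (0 : ℝ) ≤ 2 * sh b c)
  nlinarith

end Pool.Agent.H40.NE
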