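import Pool.Agent.H40.NE.Main
import Pool.Agent.H40.NE.Amp3
import Pool.Agent.H40.QU.Shift

/-!
# The admissible quadratic polynomials
-/

set_option autoImplicit false

namespace Pool.Agent.H40.NE

open Finset Filter Topology
open Pool.Agent.H40.QU (sh F F_cast F_ge sys)
open Pool.Agent.K4H14.FG (win UJ PJ)

theorem F_big (a b c : ℤ) (ha : 0 < a) (n : ℕ) : n ^ 2 + 1 ≤ F a b c n := by
  have h1 := F_cast a b c ha n
  have h2 : (n : ℤ) ^ 2 + 1 ≤ QU.val a b c (n + sh b c) := by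
    unfold QU.val
    have hs : ((n + sh b c : ℕ) : ℤ) = n + (b.natAbs + c.natAbs + 2) := by unfold sh; push_cast; ring
    have hc0 : (0 : ℤ) ≤ c.natAbs := Int.natCast_nonneg _
    have hb0 : (0 : ℤ) ≤ b.natAbs := Int.natCast_nonneg _
    have hb : -(b.natAbs : ℤ) ≤ b := by omega
    have hc : -(c.natAbs : ℤ) ≤ c := by omega
    have hn : (0 : ℤ) ≤ n := Int.natCast_nonneg _
    rw [hs]
    generalize (b.natAbs : ℤ) = b' at *
    generalize (c.natAbs : ℤ) = c' at *
    generalize (n : ℤ) = n' at *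
    have e : a * (n' + (b' + c' + 2)) ^ 2 + b * (n' + (b' + c' + 2)) =
      (n' + (b' + c' + 2)) * (a * (n' + (b' + c' + 2)) + b) := by ring
    have h3 : n' + c' + 2 ≤ a * (n' + (b' + c' + 2)) + b := by nlinarith
    have h4 : (n' + (b' + c' + 2)) * (n' + c' + 2) ≤ (n' + (b' + c' + 2)) * (a * (n' + (b' + c' + 2)) + b) :=
      mul_le_mul_of_nonneg_left h3 (by linarith)
    rw [← e] at h4
    nlinarith [mul_nonneg hn hb0, mul_nonneg hn hc0, mul_nonneg hb0 hc0]
  rw [← h1] at h2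
  exact_mod_cast h2

theorem F_up (a b c : ℤ) (ha : 0 < a) : ∃ K : ℝ, 1 ≤ K ∧ ∀ n : ℕ, (F a b c n : ℝ) ≤ K * (n + 1) ^ 2 := by
  refine ⟨a * (1 + sh b c) ^ 2 + |(b : ℝ)| * (1 + sh b c) + |(c : ℝ)|, ?_, fun n => ?_⟩
  · have h1 : (1 : ℝ) ≤ a := by exact_mod_cast ha
    have h2 : (0 : ℝ) ≤ sh b c := Nat.cast_nonneg _
    have h3 : (1 : ℝ) ≤ (1 + sh b c) ^ 2 := by nlinarith
    have h4 : 0 ≤ |(b : ℝ)| * (1 + sh b c) := by positivity
    have h5 : 0 ≤ |(c : ℝ)| := abs_nonneg _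
    nlinarith
  · have h1 : (F a b c n : ℝ) = a * ((n : ℝ) + sh b c) ^ 2 + b * ((n : ℝ) + sh b c) + c := by
      have h2 : ((F a b c n : ℤ) : ℝ) = ((QU.val a b c (n + sh b c) : ℤ) : ℝ) := by rw [F_cast a b c ha]
      unfold QU.val at h2
      push_cast at h2
      exact h2
    rw [h1]
    have h2 : (0 : ℝ) ≤ sh b c := Nat.cast_nonneg _
    have h3 : (0 : ℝ) ≤ n := Nat.cast_nonneg _
    have h4 : (1 : ℝ) ≤ a := by exact_mod_cast ha
    have h5 : (n : ℝ) + sh b c ≤ (1 + sh b c) * (n + 1) := by nlinarith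
    have h6 : ((n : ℝ) + sh b c) ^ 2 ≤ ((1 + sh b c) * (n + 1)) ^ 2 :=
      pow_le_pow_left₀ (by linarith) h5 2
    have h7 : (a : ℝ) * ((n : ℝ) + sh b c) ^ 2 ≤ a * ((1 + sh b c) * (n + 1)) ^ 2 :=
      mul_le_mul_of_nonneg_left h6 (by linarith)
    have h8 : (b : ℝ) * ((n : ℝ) + sh b c) ≤ |(b : ℝ)| * ((1 + sh b c) * (n + 1)) :=
      (mul_le_mul_of_nonneg_right (le_abs_self _) (by linarith)).trans
        (mul_le_mul_of_nonneg_left h5 (abs_nonneg _))
    have h9 : (c : ℝ) ≤ |(c : ℝ)| := le_abs_self _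
    have h10 : 0 ≤ |(b : ℝ)| * (1 + sh b c) := by positivity
    have h11 : 0 ≤ |(c : ℝ)| := abs_nonneg _
    have h12 : (1 : ℝ) ≤ (n + 1) ^ 2 := by nlinarith
    have h13 : (n : ℝ) + 1 ≤ (n + 1) ^ 2 := by nlinarith
    have h14 := mul_le_mul_of_nonneg_left h13 h10
    have h15 := mul_le_mul_of_nonneg_left h12 h11
    nlinarith

theorem F_dvd (a b c : ℤ) (ha : 0 < a) (p x : ℕ) :
    p ∣ F a b c x ↔ (a : ZMod p) * ((x : ZMod p) + sh b c) ^ 2 + b * ((x : ZMod p) + sh b c) + c = 0 := by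
  rw [← Int.natCast_dvd_natCast, F_cast a b c ha, ← ZMod.intCast_zmod_eq_zero_iff_dvd]
  unfold QU.val
  push_cast
  exact Iff.rfl

theorem F_le_two (a b c : ℤ) (ha : 0 < a) (hg : ∀ d : ℤ, d ∣ a → d ∣ b → d ∣ c → IsUnit d) (p : ℕ)
    (hp : p.Prime) : ((range p).filter (fun m : ℕ => p ∣ F a b c m)).card ≤ 2 := by
  have : Fact p.Prime := ⟨hp⟩
  set P : Polynomial (ZMod p) := Polynomial.C (a : ZMod p) * Polynomial.X ^ 2 +
    Polynomial.C (b : ZMod p) * Polynomial.X + Polynomial.C (c : ZMod p) with hP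
  have hne : P ≠ 0 := by
    intro h0
    have h2 : P.coeff 2 = 0 := by rw [h0]; simp
    have h1 : P.coeff 1 = 0 := by rw [h0]; simp
    have h3 : P.coeff 0 = 0 := by rw [h0]; simp
    rw [hP, Polynomial.coeff_add, Polynomial.coeff_add, Polynomial.coeff_C_mul, Polynomial.coeff_C_mul,
      Polynomial.coeff_X_pow, Polynomial.coeff_X, Polynomial.coeff_C] at h2 h1 h3
    norm_num at h2 h1 h3
    have h4 := hg (p : ℤ) ((ZMod.intCast_zmod_eq_zero_iff_dvd a p).1 h2)
      ((ZMod.intCast_zmod_eq_zero_iff_dvd b p).1 h1) ((ZMod.intCast_zmod_eq_zero_iff_dvd c p).1 h3)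
    exact (Nat.prime_iff_prime_int.1 hp).not_isUnit h4
  have hdeg : P.natDegree ≤ 2 := Polynomial.natDegree_quadratic_le
  have h1 : ((range p).filter (fun m : ℕ => p ∣ F a b c m)).card ≤ P.roots.toFinset.card := by
    refine card_le_card_of_injOn (fun m : ℕ => (m : ZMod p) + sh b c) ?_ ?_
    · intro m hm
      simp only [coe_filter, mem_range, Set.mem_ofPred_eq] at hm
      rw [mem_coe, Multiset.mem_toFinset, Polynomial.mem_roots hne]
      have h2 := (F_dvd a b c ha p m).1 hm.2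
      simp only [hP, Polynomial.IsRoot, Polynomial.eval_add, Polynomial.eval_mul, Polynomial.eval_pow,
        Polynomial.eval_X, Polynomial.eval_C]
      exact h2
    · intro m hm n hn h
      simp only [coe_filter, mem_range, Set.mem_ofPred_eq] at hm hn
      have h4 : (m : ZMod p) = n := add_right_cancel h
      have h3 := congrArg ZMod.val h4
      rwa [ZMod.val_cast_of_lt hm.1, ZMod.val_cast_of_lt hn.1] at h3
  exact h1.trans ((Multiset.toFinset_card_le _).trans ((Polynomial.card_roots' _).trans hdeg))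

theorem F_at_two (a b c : ℤ) (ha : 0 < a) (he : ¬ (Even (a + b) ∧ Even c)) :
    ((range 2).filter (fun m : ℕ => 2 ∣ F a b c m)).card ≤ 1 := by
  by_contra hc
  push Not at hc
  have h1 : (range 2).filter (fun m : ℕ => 2 ∣ F a b c m) = range 2 := by
    apply eq_of_subset_of_card_le (filter_subset _ _)
    rw [card_range]
    exact hc
  have h2 : ∀ m ∈ range 2, 2 ∣ F a b c m := fun m hm => by
    rw [← h1, mem_filter] at hm
    exact hm.2
  have h0 := h2 0 (by simp)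
  have h3 := h2 1 (by simp)
  have g0 : (2 : ℤ) ∣ QU.val a b c (0 + sh b c) := by
    rw [← F_cast a b c ha]; exact_mod_cast h0
  have g1 : (2 : ℤ) ∣ QU.val a b c (1 + sh b c) := by
    rw [← F_cast a b c ha]; exact_mod_cast h3
  apply he
  unfold QU.val at g0 g1
  push_cast at g0 g1
  rw [zero_add] at g0
  generalize (sh b c : ℤ) = s at g0 g1
  rw [← even_iff_two_dvd] at g0 g1
  rcases Int.even_or_odd s with hs | hs
  · have h4 : Even (b * s) := hs.mul_left b
    have h5 : Even (a * s ^ 2) := (hs.pow_of_ne_zero (by norm_num)).mul_left a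
    have hcE : Even c := by
      have := (g0.sub h5).sub h4
      have e : a * s ^ 2 + b * s + c - a * s ^ 2 - b * s = c := by ring
      rwa [e] at this
    refine ⟨?_, hcE⟩
    have e : a + b = (a * (1 + s) ^ 2 + b * (1 + s) + c) - c - a * s ^ 2 - b * s - 2 * (a * s) := by ring
    rw [e]
    exact (((g1.sub hcE).sub h5).sub h4).sub (even_two_mul _)
  · obtain ⟨t, rfl⟩ := hs
    have hcE : Even c := by
      have e : c = (a * (1 + (2 * t + 1)) ^ 2 + b * (1 + (2 * t + 1)) + c) - 2 * (2 * a * (t + 1) ^ 2 + b * (t + 1)) := by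
        ring
      rw [e]
      exact g1.sub (even_two_mul _)
    refine ⟨?_, hcE⟩
    have e : a + b = (a * (2 * t + 1) ^ 2 + b * (2 * t + 1) + c) - c - 2 * (2 * a * t ^ 2 + 2 * a * t + b * t) := by ring
    rw [e]
    exact (g0.sub hcE).sub (even_two_mul _)

theorem quad (a b c : ℤ) (ha : 0 < a) (hg : ∀ d : ℤ, d ∣ a → d ∣ b → d ∣ c → IsUnit d)
    (he : ¬ (Even (a + b) ∧ Even c)) : Quad (F a b c) where
  per := (sys a b c ha).per
  big := F_big a b c ha
  le_two := F_le_two a b c ha hg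
  at_two := F_at_two a b c ha he

theorem F_win (a b c : ℤ) (ha : 0 < a) (hD : ¬ IsSquare (b ^ 2 - 4 * a * c)) (N : ℕ) (hN : 1 ≤ N) :
    ∀ᶠ z : ℝ in atTop, ∀ j ∈ range N, ∏ p ∈ win z N j, lf (F a b c) p ≤ 1 - 1 / (4 * N) := by
  filter_upwards [Pool.Agent.H40.QU.win_small a b c ha hD N hN] with z hz j hj
  exact hz.1 j (mem_range.1 hj)

end Pool.Agent.H40.NE
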